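import Pool.Agent.TH992.E.Low

/-!
# All even arm exponents of critical bond percolation on the square lattice, in annuli

For every `k ≥ 2` the probability that `k` different open clusters cross the annulus
`r ≤ max (|x|, |y|) ≤ n` is of order `n ^ (-(4 k² - 1) / 12)`, for every fixed `r ≥ k`; the upper bound
holds for every `r`, and the lower bound is `c (r / n) ^ ((4 k² - 1) / 12)`, uniformly in `r`.
-/

set_option autoImplicit false

namespace Pool.Agent.Results.MP_35f495_pr.EvenArmsPlane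

open MeasureTheory

/-- The square lattice: two points of `ℤ²` are adjacent when they differ by one in exactly one
coordinate. -/
def Z2 : SimpleGraph (ℤ × ℤ) where
  Adj u v := |u.1 - v.1| + |u.2 - v.2| = 1
  symm := ⟨fun u v h => by rw [abs_sub_comm v.1, abs_sub_comm v.2]; exact h⟩
  loopless := ⟨fun u h => by simp at h⟩

/-- Critical bond percolation: every edge of the square lattice is open (`true`) with
probability `1/2`, independently of the other edges. -/
noncomputable def crit : Measure (Z2.edgeSet → Bool) :=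
  Measure.infinitePi (fun _ => ProbabilityTheory.bernoulliMeasure true false
    ⟨1/2, by norm_num, by norm_num⟩)

/-- The graph of the open edges with both ends in the annulus `r ≤ max (|x|, |y|) ≤ n`. -/
def annGraph (r n : ℕ) (ω : Z2.edgeSet → Bool) : SimpleGraph (ℤ × ℤ) :=
  SimpleGraph.fromEdgeSet {e | (∃ h : e ∈ Z2.edgeSet, ω ⟨e, h⟩ = true) ∧
    ∀ v ∈ e, (r : ℤ) ≤ max |v.1| |v.2| ∧ max |v.1| |v.2| ≤ n}

/-- `k` different open clusters of the annulus `r ≤ max (|x|, |y|) ≤ n` join its two boundaries. -/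
def Clusters (k r n : ℕ) (ω : Z2.edgeSet → Bool) : Prop :=
  ∃ x : Fin k → ℤ × ℤ, (∀ i, max |(x i).1| |(x i).2| = r ∧ ∃ y : ℤ × ℤ, max |y.1| |y.2| = n ∧
    (annGraph r n ω).Reachable (x i) y) ∧ ∀ i j, i ≠ j → ¬ (annGraph r n ω).Reachable (x i) (x j)

/-- **All even arm exponents in the plane.** -/
theorem result (k : ℕ) (hk : 2 ≤ k) :
    (∀ r : ℕ, ∃ C : ℝ, ∀ n : ℕ, 1 ≤ n →
      crit.real {ω | Clusters k r n ω} ≤ C * (n : ℝ) ^ (-((4 * (k : ℝ) ^ 2 - 1) / 12))) ∧
    (∃ c : ℝ, 0 < c ∧ ∀ r n : ℕ, k ≤ r → r ≤ n →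
      c * ((r : ℝ) / n) ^ ((4 * (k : ℝ) ^ 2 - 1) / 12) ≤ crit.real {ω | Clusters k r n ω}) :=
  TH992.E.main2 k hk

end Pool.Agent.Results.MP_35f495_pr.EvenArmsPlane
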