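import Pool.Agent.TH291.NC.Rect
import Pool.Agent.TH291.NW.Rct
import Pool.Agent.TH291.NW.Brg
import Pool.Agent.TH291.NW.Car2

/-!
Bond percolation on `ℤ²`: the near-critical window of the crossing probabilities. (1) In a bounded
planar domain whose boundary has dimension less than `3/2` the probability of a connection of two
boundary sets moves by at most `C |p - 1/2| δ^(-3/4)`. (2) Limits at `p_n = 1/2 + o(δ_n^(3/4))` are
limits at `1/2`. (3) For rectangles the change is of order `min(1, |p - 1/2| δ^(-3/4))`. (4) Cardy's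
formula in the slit strips for `p_n = 1/2 + o(δ_n^(3/4))`.
-/

namespace Pool.Agent.Results.MP_35f495_pr.NearCriticalWindow

open MeasureTheory Filter Topology Set

/-- The square lattice. -/
def z2 : SimpleGraph (ℤ × ℤ) where
  Adj u v := |u.1 - v.1| + |u.2 - v.2| = 1
  symm := ⟨fun u v h => by rw [abs_sub_comm v.1, abs_sub_comm v.2]; exact h⟩
  loopless := ⟨fun u h => by simp at h⟩

/-- Bond percolation: every edge is open (`true`) with probability `p`, independently. -/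
noncomputable def law (p : unitInterval) : Measure (z2.edgeSet → Bool) :=
  Measure.infinitePi (fun _ => ProbabilityTheory.bernoulliMeasure true false p)

/-- The critical parameter. -/
noncomputable def half : unitInterval := ⟨1/2, by norm_num, by norm_num⟩

/-- The graph of the open edges. -/
def openGraph (ω : z2.edgeSet → Bool) : SimpleGraph (ℤ × ℤ) :=
  SimpleGraph.fromEdgeSet {e | ∃ h : e ∈ z2.edgeSet, ω ⟨e, h⟩ = true}

/-- The point of the plane at the vertex `v` of the lattice of mesh `δ`. -/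
noncomputable def pt (δ : ℝ) (v : ℤ × ℤ) : ℝ × ℝ := (δ * v.1, δ * v.2)

/-- `u` and `v` are joined by an open edge whose segment lies in `D`. -/
def OpenIn (D : Set (ℝ × ℝ)) (δ : ℝ) (ω : z2.edgeSet → Bool) (u v : ℤ × ℤ) : Prop :=
  (openGraph ω).Adj u v ∧ segment ℝ (pt δ u) (pt δ v) ⊆ D

/-- The probability that an open path in `D` joins `I` and `J`, at mesh `δ`. -/
noncomputable def conn (p : unitInterval) (D : Set (ℝ × ℝ)) (δ : ℝ) (I J : Set (ℤ × ℤ)) : ℝ :=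
  (law p).real {ω | ∃ u ∈ I, ∃ v ∈ J, Relation.ReflTransGen (OpenIn D δ ω) u v}

/-- The frontier of `D` is covered by `M r^(-s)` squares of half side `r`, for every `r ≤ 1`. -/
def Covered (D : Set (ℝ × ℝ)) (M s : ℝ) : Prop := ∀ r : ℝ, 0 < r → r ≤ 1 →
  ∃ F : Finset (ℝ × ℝ), (F.card : ℝ) ≤ M * r ^ (-s) ∧ ∀ x ∈ frontier D, ∃ y ∈ F, dist x y ≤ r

/-- The vertices of `I` are within `A δ` of the frontier of `D` (sup distance). -/
def NearFrontier (D : Set (ℝ × ℝ)) (A δ : ℝ) (I : Set (ℤ × ℤ)) : Prop :=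
  ∀ v ∈ I, ∃ x ∈ frontier D, dist x (pt δ v) ≤ A * δ

/-- The graph of the open edges with both ends in the rectangle `[0,w] × [0,h]`. -/
def rectGraph (w h : ℕ) (ω : z2.edgeSet → Bool) : SimpleGraph (ℤ × ℤ) :=
  SimpleGraph.fromEdgeSet {e | (∃ he : e ∈ z2.edgeSet, ω ⟨e, he⟩ = true) ∧
    ∀ v ∈ e, (0 ≤ v.1 ∧ v.1 ≤ w) ∧ (0 ≤ v.2 ∧ v.2 ≤ h)}

/-- The probability that an open path of the rectangle `[0,w] × [0,h]` joins its left side to its
right side. -/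
noncomputable def cross (p : unitInterval) (w h : ℕ) : ℝ :=
  (law p).real {ω | ∃ y z : ℤ, (0 ≤ y ∧ y ≤ h) ∧ (0 ≤ z ∧ z ≤ h) ∧
    (rectGraph w h ω).Reachable (0, y) ((w : ℤ), z)}

/-- The step of an open path of the slit strip. The column of `(u,v)` is `u - v`, its height is
`u + v`; the columns are between `-a` and `b + 1`; the edges between the columns `0` and `1` with
both ends at height `≥ 0` (those which cross the slit) are removed. -/
def SlitStep (a b : ℕ) (ω : z2.edgeSet → Bool) (x y : ℤ × ℤ) : Prop :=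
  (openGraph ω).Adj x y ∧
    (-(a:ℤ) ≤ x.1 - x.2 ∧ x.1 - x.2 ≤ b + 1) ∧ (-(a:ℤ) ≤ y.1 - y.2 ∧ y.1 - y.2 ≤ b + 1) ∧
    ¬ (0 ≤ x.1 + x.2 ∧ 0 ≤ y.1 + y.2 ∧
      ((x.1 - x.2 ≤ 0 ∧ 0 < y.1 - y.2) ∨ (y.1 - y.2 ≤ 0 ∧ 0 < x.1 - x.2)))

/-- The probability that an open path of the slit strip joins the left bank of the slit (column `0`,
height `≥ 0`) to the right side of the strip (column `b + 1`). -/
noncomputable def slitCross (p : unitInterval) (a b : ℕ) : ℝ :=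
  (law p).real {ω | ∃ x y : ℤ × ℤ, x.1 - x.2 = 0 ∧ 0 ≤ x.1 + x.2 ∧ y.1 - y.2 = b + 1 ∧
    Relation.ReflTransGen (SlitStep a b ω) x y}

/-- Cardy's function. -/
noncomputable def cardy (x : ℝ) : ℝ :=
  (∫ t in (0:ℝ)..x, (t*(1-t))^(-(2:ℝ)/3)) / ∫ t in (0:ℝ)..1, (t*(1-t))^(-(2:ℝ)/3)

theorem result :
    -- (1) stability in bounded domains
    (∀ ρ M s A : ℝ, 0 ≤ M → 0 ≤ s → s < 3/2 → 0 ≤ A → ∃ C : ℝ, 0 < C ∧
      ∀ D : Set (ℝ × ℝ), (∀ x ∈ D, |x.1| ≤ ρ ∧ |x.2| ≤ ρ) → Covered D M s →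
      ∀ δ : ℝ, 0 < δ → δ ≤ 1 → ∀ I J : Set (ℤ × ℤ), NearFrontier D A δ (I ∪ J) →
      ∀ p : unitInterval,
        |conn p D δ I J - conn half D δ I J| ≤ C * |(p:ℝ) - 1/2| * δ ^ (-(3/4 : ℝ))) ∧
    -- (2) limits in the window
    (∀ ρ M s A : ℝ, 0 ≤ M → 0 ≤ s → s < 3/2 → 0 ≤ A →
      ∀ D : Set (ℝ × ℝ), (∀ x ∈ D, |x.1| ≤ ρ ∧ |x.2| ≤ ρ) → Covered D M s →
      ∀ (δ : ℕ → ℝ) (I J : ℕ → Set (ℤ × ℤ)) (p : ℕ → unitInterval), (∀ n, 0 < δ n) →
      Tendsto δ atTop (𝓝 0) → (∀ n, NearFrontier D A (δ n) (I n ∪ J n)) →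
      Tendsto (fun n => |(p n : ℝ) - 1/2| * (δ n) ^ (-(3/4 : ℝ))) atTop (𝓝 0) → ∀ Q : ℝ,
        (Tendsto (fun n => conn (p n) D (δ n) (I n) (J n)) atTop (𝓝 Q) ↔
          Tendsto (fun n => conn half D (δ n) (I n) (J n)) atTop (𝓝 Q))) ∧
    -- (3) the exact window for rectangles
    (∀ K : ℕ, 1 ≤ K → ∃ c C : ℝ, 0 < c ∧ 0 < C ∧
      ∀ w h : ℕ, 1 ≤ w → 1 ≤ h → w ≤ K * h → h ≤ K * w → ∀ p : unitInterval,
        c * min 1 (|(p:ℝ) - 1/2| * (w:ℝ) ^ (3/4 : ℝ)) ≤ |cross p w h - cross half w h| ∧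
        |cross p w h - cross half w h| ≤ C * min 1 (|(p:ℝ) - 1/2| * (w:ℝ) ^ (3/4 : ℝ))) ∧
    -- (4) Cardy's formula in the slit strips, in the window
    (∀ α β : ℝ, 0 < α → 0 < β → ∀ (δ : ℕ → ℝ) (a b : ℕ → ℕ) (p : ℕ → unitInterval),
      (∀ n, 0 < δ n) → Tendsto δ atTop (𝓝 0) →
      Tendsto (fun n => δ n * a n) atTop (𝓝 α) → Tendsto (fun n => δ n * b n) atTop (𝓝 β) →
      Tendsto (fun n => |(p n : ℝ) - 1/2| * (δ n) ^ (-(3/4 : ℝ))) atTop (𝓝 0) →
        Tendsto (fun n => slitCross (p n) (a n) (b n)) atTop (𝓝 (cardy (α / (α + β))))) := by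
  have h1 : ∀ ρ M s A : ℝ, 0 ≤ M → 0 ≤ s → s < 3/2 → 0 ≤ A → ∃ C : ℝ, 0 < C ∧
      ∀ D : Set (ℝ × ℝ), (∀ x ∈ D, |x.1| ≤ ρ ∧ |x.2| ≤ ρ) → Covered D M s →
      ∀ δ : ℝ, 0 < δ → δ ≤ 1 → ∀ I J : Set (ℤ × ℤ), NearFrontier D A δ (I ∪ J) →
      ∀ p : unitInterval,
        |conn p D δ I J - conn half D δ I J| ≤ C * |(p:ℝ) - 1/2| * δ ^ (-(3/4 : ℝ)) :=
    fun ρ M s A hM hs0 hs hA => TH291.NW.dom_stab' ρ M s A hM hs0 hs hA
  refine ⟨h1, ?_, ?_, ?_⟩
  · intro ρ M s A hM hs0 hs hA D hD hcov δ I J p hδ0 hδ hIJ hp Q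
    obtain ⟨C, hC, h⟩ := h1 ρ M s A hM hs0 hs hA
    have hdiff : Tendsto (fun n => conn (p n) D (δ n) (I n) (J n) -
        conn half D (δ n) (I n) (J n)) atTop (𝓝 0) := by
      have hb := hp.const_mul C
      rw [mul_zero] at hb
      refine squeeze_zero_norm' ?_ hb
      filter_upwards [hδ.eventually_lt_const one_pos] with n hn
      rw [Real.norm_eq_abs]
      refine (h D hD hcov (δ n) (hδ0 n) hn.le (I n) (J n) (hIJ n) (p n)).trans (le_of_eq ?_)
      ring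
    constructor
    · intro hQ
      have := hQ.sub hdiff
      rw [sub_zero] at this
      refine this.congr (fun n => ?_)
      ring
    · intro hQ
      have := hdiff.add hQ
      rw [zero_add] at this
      refine this.congr (fun n => ?_)
      ring
  · intro K hK
    obtain ⟨c, C, hc, hC, h⟩ := TH291.NW.cross_window K hK
    refine ⟨c, C, hc, hC, ?_⟩
    intro w h' hw hh hwh hhw p
    have e : ∀ p : unitInterval, cross p w h' = H974.hh p w h' := fun p =>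
      TH291.NC.cross_eq p h' hw
    rw [e, e]
    exact h w h' hw hh hwh hhw p p.2.1 p.2.2
  · intro α β hα hβ δ a b p hδ0 hδ ha hb hp
    exact TH291.NW.Car.car_lim hα hβ δ a b p hδ0 hδ ha hb hp

end Pool.Agent.Results.MP_35f495_pr.NearCriticalWindow
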