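import Pool.Agent.TH976.Scal
import Pool.Agent.H160R2.SA.Arm

/-!
Critical bond percolation on the square lattice, restricted to a half-plane or to a quadrant:
the probability that `k` given vertices are connected inside the domain, for every `k` and all
positions of the vertices (interior, boundary, corner), up to a factor `C ^ k`. The `k`-point
functions which appear are exactly covariant, with weight `5/48` at every point, under all
conformal maps between these domains. Hence the connection probabilities are conformally covariant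
up to a factor which depends on nothing but the number of points.
-/

set_option autoImplicit false

namespace Pool.Agent.Results.MP_35f495_pr.QuadrantHalfPlaneCovariance

open MeasureTheory Finset

/-- The square lattice: two points of `ℤ²` are adjacent when they differ by one in exactly one
coordinate. -/
def Z2 : SimpleGraph (ℤ × ℤ) where
  Adj u v := |u.1 - v.1| + |u.2 - v.2| = 1
  symm := ⟨fun u v h => by rw [abs_sub_comm v.1, abs_sub_comm v.2]; exact h⟩
  loopless := ⟨fun u h => by simp at h⟩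

/-- Critical bond percolation: every edge of the square lattice is open (`true`) with
probability `1/2`, independently of the other edges. -/
noncomputable def crit : Measure (Z2.edgeSet → Bool) :=
  Measure.infinitePi (fun _ => ProbabilityTheory.bernoulliMeasure true false
    ⟨1/2, by norm_num, by norm_num⟩)

/-- A vertex as a point of the complex plane. -/
noncomputable def pt (v : ℤ × ℤ) : ℂ := ⟨(v.1 : ℝ), (v.2 : ℝ)⟩

/-- The two domains. -/
inductive Shape
  | half
  | quadrant

/-- The open upper half-plane and the open quadrant `x > 0, y > 0`. -/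
def dom : Shape → Set ℂ
  | .half => {z | 0 < z.im}
  | .quadrant => {z | 0 < z.re ∧ 0 < z.im}

/-- The graph of the open edges with both endpoints in the domain. -/
def openGraph (s : Shape) (ω : Z2.edgeSet → Bool) : SimpleGraph (ℤ × ℤ) :=
  SimpleGraph.fromEdgeSet
    {e | (∃ h : e ∈ Z2.edgeSet, ω ⟨e, h⟩ = true) ∧ ∀ v ∈ e, pt v ∈ dom s}

/-- The probability that the vertices of `X` are connected to each other by open paths inside
the domain. -/
noncomputable def conn (s : Shape) (X : Finset (ℤ × ℤ)) : ℝ :=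
  crit.real {ω | ∀ u ∈ X, ∀ v ∈ X, (openGraph s ω).Reachable u v}

/-- The two-point function of the half-plane. -/
noncomputable def GH (z w : ℂ) : ℝ :=
  ‖z - w‖ ^ (-(5 / 24) : ℝ) * (1 + ‖z - w‖ ^ 2 / (z.im * w.im)) ^ (-(11 / 48) : ℝ)

/-- The two-point functions of the domains. -/
noncomputable def G : Shape → ℂ → ℂ → ℝ
  | .half, z, w => GH z w
  | .quadrant, z, w =>
    ‖2 * z‖ ^ (5 / 48 : ℝ) * ‖2 * w‖ ^ (5 / 48 : ℝ) * GH (z ^ 2) (w ^ 2)

/-- The `k`-point functions: the product, over the points `z j` after the first two, of the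
maximum over the pairs `z i, z l` of previous points of
`(G (z j) (z i) * G (z j) (z l) / G (z i) (z l)) ^ (1/2)`. -/
noncomputable def F (s : Shape) (z : ℕ → ℂ) (k : ℕ) : ℝ :=
  G s (z 0) (z 1) * ∏ j ∈ Ico 2 k, ⨆ p : {p : Fin j × Fin j // p.1 < p.2},
    Real.sqrt (G s (z j) (z p.1.1) * G s (z j) (z p.1.2) / G s (z p.1.1) (z p.1.2))

/-- `φ` is a conformal map from `D` onto `D'`: it is holomorphic on `D` and it has a holomorphic
inverse `ψ` from `D'` to `D`. -/
def Conformal (D D' : Set ℂ) (φ : ℂ → ℂ) : Prop :=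
  DifferentiableOn ℂ φ D ∧ Set.MapsTo φ D D' ∧ ∃ ψ : ℂ → ℂ, DifferentiableOn ℂ ψ D' ∧
    Set.MapsTo ψ D' D ∧ (∀ z ∈ D, ψ (φ z) = z) ∧ ∀ w ∈ D', φ (ψ w) = w

/-- the vertices of the domain -/
def vert (s : Shape) : Set (ℤ × ℤ) := {v | pt v ∈ dom s}

theorem openGraph_adj (s : Shape) (ω : Z2.edgeSet → Bool) (u v : ℤ × ℤ) :
    (openGraph s ω).Adj u v ↔ H974.Adj (H974.opn ω ∩ TH976.dE (vert s)) u v := by
  unfold openGraph
  rw [SimpleGraph.fromEdgeSet_adj]
  constructor
  · rintro ⟨⟨⟨h, hω⟩, hV⟩, hne⟩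
    have hadj : (H974.openGraph ω).Adj u v := by
      unfold H974.openGraph
      rw [SimpleGraph.fromEdgeSet_adj]
      exact ⟨⟨h, hω⟩, hne⟩
    obtain ⟨e, he, hcase⟩ := (H974.openGraph_adj ω u v).mp hadj
    have hu : u ∈ vert s := hV u (Sym2.mem_mk_left u v)
    have hv : v ∈ vert s := hV v (Sym2.mem_mk_right u v)
    refine ⟨e, ⟨he, ?_⟩, hcase⟩
    rcases hcase with ⟨h1, h2⟩ | ⟨h1, h2⟩
    · exact ⟨by rw [h1]; exact hu, by rw [h2]; exact hv⟩
    · exact ⟨by rw [h1]; exact hv, by rw [h2]; exact hu⟩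
  · rintro ⟨e, ⟨he, hV⟩, hcase⟩
    have hadj : (H974.openGraph ω).Adj u v := (H974.openGraph_adj ω u v).mpr ⟨e, he, hcase⟩
    unfold H974.openGraph at hadj
    rw [SimpleGraph.fromEdgeSet_adj] at hadj
    refine ⟨⟨hadj.1, ?_⟩, hadj.2⟩
    intro w hw
    rcases Sym2.mem_iff.mp hw with rfl | rfl
    · rcases hcase with ⟨h1, h2⟩ | ⟨h1, h2⟩
      · rw [← h1]; exact hV.1
      · rw [← h2]; exact hV.2
    · rcases hcase with ⟨h1, h2⟩ | ⟨h1, h2⟩
      · rw [← h2]; exact hV.2
      · rw [← h1]; exact hV.1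

theorem conn_eq (s : Shape) (X : Finset (ℤ × ℤ)) : conn s X = TH976.PD (vert s) (H362P.Cn X) := by
  have h : conn s X = (H974.bondLaw H974.hlf).real
      {ω | ∀ u ∈ X, ∀ v ∈ X, (openGraph s ω).Reachable u v} := rfl
  have key : ∀ (ω : Z2.edgeSet → Bool) (u v : ℤ × ℤ), (openGraph s ω).Reachable u v ↔
      H974.Reach (H974.opn ω ∩ TH976.dE (vert s)) u v := by
    intro ω u v
    rw [SimpleGraph.reachable_iff_reflTransGen]
    have : (openGraph s ω).Adj = H974.Adj (H974.opn ω ∩ TH976.dE (vert s)) := by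
      funext u v
      exact propext (openGraph_adj s ω u v)
    rw [this]
    rfl
  rw [h]
  unfold TH976.PD H362P.Cn
  congr 1
  ext ω
  constructor
  · intro h u hu v hv
    exact (key ω u v).mp (h u hu v hv)
  · intro h u hu v hv
    exact (key ω u v).mpr (h u hu v hv)

theorem vert_half : vert .half = TH976.DH := by
  ext v
  exact (TH976.mod_H.vert v).symm

theorem vert_quadrant : vert .quadrant = TH976.DQ := by
  ext v
  exact (TH976.mod_Q.vert v).symm

/-- the conformal map onto the half-plane -/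
def uni : Shape → ℂ → ℂ
  | .half => id
  | .quadrant => fun z => z ^ 2

theorem model (s : Shape) : TH976.Mod (dom s) (vert s) (G s) (uni s) := by
  cases s
  · rw [vert_half]
    exact TH976.mod_H
  · rw [vert_quadrant]
    exact TH976.mod_Q

theorem kpt : ∃ C : ℝ, 1 ≤ C ∧ ∀ (s : Shape) (k : ℕ) (x : ℕ → ℤ × ℤ), 2 ≤ k →
    (∀ i < k, x i ∈ vert s) → (∀ i < k, ∀ j < k, i ≠ j → x i ≠ x j) →
      TH976.Cmp (C ^ k) (conn s ((range k).image x)) (F s (fun i => pt (x i)) k) := by
  have hA : Pool.Agent.H389R2.CD.ArS := Pool.Agent.H160R2.SA.arSharp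
  obtain ⟨C1, hC1, h1⟩ := TH976.kpoint_H hA
  obtain ⟨C2, hC2, h2⟩ := TH976.kpoint_Q hA
  refine ⟨max C1 C2, le_max_of_le_left hC1, ?_⟩
  intro s k x hk hx hd
  rw [conn_eq]
  cases s
  · have h3 := h1 k x hk (by rw [vert_half] at hx; exact hx) hd
    rw [vert_half]
    exact h3.weaken (pow_le_pow_left₀ (by linarith) (le_max_left _ _) _)
  · have h3 := h2 k x hk (by rw [vert_quadrant] at hx; exact hx) hd
    rw [vert_quadrant]
    exact h3.weaken (pow_le_pow_left₀ (by linarith) (le_max_right _ _) _)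

theorem cmp_iff {C a b : ℝ} (h : TH976.Cmp C a b) : C⁻¹ * b ≤ a ∧ a ≤ C * b := by
  have h0 := h.k0
  refine ⟨?_, h.l⟩
  rw [inv_mul_le_iff₀ h0]
  exact h.r

/-- **Conformal covariance up to constants of the connection probabilities of critical bond
percolation on `ℤ²`, in the half-plane and in the quadrant.** There is a constant `C` such that:
(1) the probability that `k ≥ 2` distinct vertices of the domain are connected inside the domain is
`F` up to a factor `C ^ k`, for all positions of the vertices;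
(2) `F` is exactly covariant under every conformal map between the domains, with weight `5/48` at
every point;
(3) for every conformal map `φ` between the domains and all distinct points `z 0, …, z (k - 1)`, as
soon as the mesh `ε` is small enough, the probability that vertices at distance at most `2ε` from
the `z i` are connected, and the product of the `|φ' (z i)| ^ (5/48)` and the probability that
vertices at distance at most `2ε` from the `φ (z i)` are connected, agree up to a factor `C ^ k`.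
(For `k = 3`, (1) says that the probability for three vertices is the square root of the product of
the three probabilities for pairs, up to a constant.) -/
theorem result : ∃ C : ℝ, 1 ≤ C ∧
    (∀ (s : Shape) (k : ℕ) (x : ℕ → ℤ × ℤ), 2 ≤ k → (∀ i < k, pt (x i) ∈ dom s) →
      (∀ i < k, ∀ j < k, i ≠ j → x i ≠ x j) →
      (C ^ k)⁻¹ * F s (fun i => pt (x i)) k ≤ conn s ((range k).image x) ∧
      conn s ((range k).image x) ≤ C ^ k * F s (fun i => pt (x i)) k) ∧
    (∀ (s s' : Shape) (φ : ℂ → ℂ), Conformal (dom s) (dom s') φ →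
      ∀ (k : ℕ) (z : ℕ → ℂ), 2 ≤ k → (∀ i < k, z i ∈ dom s) →
      F s z k = (∏ i ∈ range k, ‖deriv φ (z i)‖ ^ (5 / 48 : ℝ)) * F s' (fun i => φ (z i)) k) ∧
    (∀ (s s' : Shape) (φ : ℂ → ℂ), Conformal (dom s) (dom s') φ →
      ∀ (k : ℕ) (z : ℕ → ℂ), 2 ≤ k → (∀ i < k, z i ∈ dom s) →
      (∀ i < k, ∀ j < k, i ≠ j → z i ≠ z j) →
      ∃ ε₀ : ℝ, 0 < ε₀ ∧ ∀ ε : ℝ, 0 < ε → ε < ε₀ → ∀ x y : ℕ → ℤ × ℤ,
        (∀ i < k, ‖(ε : ℂ) * pt (x i) - z i‖ ≤ 2 * ε) →
        (∀ i < k, ‖(ε : ℂ) * pt (y i) - φ (z i)‖ ≤ 2 * ε) →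
        (C ^ k)⁻¹ * ((∏ i ∈ range k, ‖deriv φ (z i)‖ ^ (5 / 48 : ℝ)) *
          conn s' ((range k).image y)) ≤ conn s ((range k).image x) ∧
        conn s ((range k).image x) ≤ C ^ k * ((∏ i ∈ range k, ‖deriv φ (z i)‖ ^ (5 / 48 : ℝ)) *
          conn s' ((range k).image y))) := by
  obtain ⟨C0, hC0, h0⟩ := kpt
  have p0 : 0 < C0 := by linarith
  have C1 : 1 ≤ C0 * C0 := TH976.Cmp.one_le_mul' hC0 hC0
  have l1 : C0 ≤ 64 * C0 * C0 := by nlinarith
  have l2 : 1 ≤ 64 * C0 * C0 := by nlinarith
  set C := 64 * C0 * C0 with hC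
  have l3 : 64 * C0 * C0 ≤ C := le_rfl
  refine ⟨C, by linarith, ?_, ?_, ?_⟩
  · intro s k x hk hx hd
    have t := h0 s k x hk (fun i hi => hx i hi) hd
    exact cmp_iff (t.weaken (pow_le_pow_left₀ p0.le (by linarith) _))
  · intro s s' φ hφ k z hk hz
    exact (model s).cov (model s') hφ hk hz
  · intro s s' φ hφ k z hk hz hd
    have t := TH976.mesh (P := conn s) (P' := conn s') (model s) (model s')
      (fun n x hn hx hd => h0 s n x hn hx hd) (fun n x hn hx hd => h0 s' n x hn hx hd) hφ hk hz hd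
    obtain ⟨ε₀, hε, h⟩ := mem_nhdsGT_iff_exists_Ioo_subset.mp t
    refine ⟨ε₀, hε, ?_⟩
    intro ε h1 h2 x y hx hy
    have t2 := h ⟨h1, h2⟩ x y hx hy
    exact cmp_iff (t2.weaken (pow_le_pow_left₀ (by positivity) l3 _))

end Pool.Agent.Results.MP_35f495_pr.QuadrantHalfPlaneCovariance
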