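import Pool.Agent.TH601.SV.Cont2

/-!
Critical bond percolation on `ℤ²` (`p = 1/2`), in domains which need not be rectangles: the number of
open clusters joining the two long sides of a channel between two slowly varying graphs, at any mesh.
Its mean is `√3/4` times the conformal modulus of the channel, up to an explicit error, and its
variance is at most of the order of the modulus: conformal invariance, to leading order, of the number
of crossing clusters of slowly varying channels.

Coordinates: at mesh `δ` the vertex `(u,v)` of `ℤ²` sits at `X + iY`, `X = δ (u - v)`,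
`Y = δ (u + v)` (rotation by 45 degrees).  The proof uses the exact solution of the loop model on
strips (starting files `Pool.Agent.H980R2`, `Pool.Agent.H988R2`) and the annulus estimates of
`Pool.Agent.H974R2`.
-/

namespace Pool.Agent.Results.MP_35f495_pr.SlowlyVaryingDomains

open MeasureTheory Filter Topology Set

/-! ### Percolation -/

/-- edges of `ℤ²`: `(u,v,false)` joins `(u,v)` and `(u+1,v)`; `(u,v,true)` joins `(u,v)` and
`(u,v+1)`. -/
abbrev Edge := ℤ × ℤ × Bool

/-- configurations (`true` = open) -/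
abbrev Conf := Edge → Bool

/-- `x` and `y` are the two ends of an open edge -/
def OpenAdj (ω : Conf) (x y : ℤ × ℤ) : Prop :=
  (y = (x.1 + 1, x.2) ∧ ω (x.1, x.2, false) = true) ∨
  (x = (y.1 + 1, y.2) ∧ ω (y.1, y.2, false) = true) ∨
  (y = (x.1, x.2 + 1) ∧ ω (x.1, x.2, true) = true) ∨
  (x = (y.1, y.2 + 1) ∧ ω (y.1, y.2, true) = true)

/-- bond percolation at `p = 1/2`: independent fair coins on the edges -/
noncomputable def perc : Measure Conf :=
  Measure.infinitePi (fun _ : Edge => (PMF.uniformOfFintype Bool).toMeasure)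

/-- nearest neighbours in `ℤ²` -/
def Nbr (x z : ℤ × ℤ) : Prop := |x.1 - z.1| + |x.2 - z.2| = 1

/-- the open cluster of `x` in `S`: the vertices joined to `x` by an open path whose vertices are
all in `S` -/
def cluster (S : Set (ℤ × ℤ)) (ω : Conf) (x : ℤ × ℤ) : Set (ℤ × ℤ) :=
  {y | Relation.ReflTransGen (fun x y => OpenAdj ω x y ∧ x ∈ S ∧ y ∈ S) x y}

/-! ### The channel and its lattice approximation -/

/-- the channel between the graphs of `F` and `G`: `A < Y < B`, `F Y < X < G Y` -/
def Channel (F G : ℝ → ℝ) (A B : ℝ) : Set ℂ :=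
  {z | A < z.im ∧ z.im < B ∧ F z.im < z.re ∧ z.re < G z.im}

/-- its lattice approximation: the vertices `x` of `ℤ²` whose position `δ (x.1 - x.2) + i δ (x.1 + x.2)`
satisfies `A ≤ Y ≤ B`, `F Y ≤ X ≤ G Y` -/
def Dom (δ : ℝ) (F G : ℝ → ℝ) (A B : ℝ) : Set (ℤ × ℤ) :=
  {x | A ≤ δ * ((x.1 + x.2 : ℤ) : ℝ) ∧ δ * ((x.1 + x.2 : ℤ) : ℝ) ≤ B ∧
    F (δ * ((x.1 + x.2 : ℤ) : ℝ)) ≤ δ * ((x.1 - x.2 : ℤ) : ℝ) ∧
    δ * ((x.1 - x.2 : ℤ) : ℝ) ≤ G (δ * ((x.1 + x.2 : ℤ) : ℝ))}

/-- the vertices with a nearest neighbour to the left of the graph of `F` -/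
def LeftSide (δ : ℝ) (F : ℝ → ℝ) : Set (ℤ × ℤ) :=
  {x | ∃ z, Nbr x z ∧ δ * ((z.1 - z.2 : ℤ) : ℝ) < F (δ * ((z.1 + z.2 : ℤ) : ℝ))}

/-- the vertices with a nearest neighbour to the right of the graph of `G` -/
def RightSide (δ : ℝ) (G : ℝ → ℝ) : Set (ℤ × ℤ) :=
  {x | ∃ z, Nbr x z ∧ G (δ * ((z.1 + z.2 : ℤ) : ℝ)) < δ * ((z.1 - z.2 : ℤ) : ℝ)}

/-- the open clusters of the channel which meet its left side and its right side -/
def crossing (δ : ℝ) (F G : ℝ → ℝ) (A B : ℝ) (ω : Conf) : Set (Set (ℤ × ℤ)) :=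
  {C | ∃ x ∈ Dom δ F G A B, x ∈ LeftSide δ F ∧ C = cluster (Dom δ F G A B) ω x ∧
    ∃ y ∈ C, y ∈ RightSide δ G}

/-- the number of the crossing clusters -/
noncomputable def number (δ : ℝ) (F G : ℝ → ℝ) (A B : ℝ) (ω : Conf) : ℝ :=
  ((crossing δ F G A B ω).ncard : ℝ)

/-- the mean number of the crossing clusters -/
noncomputable def meanNumber (δ : ℝ) (F G : ℝ → ℝ) (A B : ℝ) : ℝ :=
  ∫ ω, number δ F G A B ω ∂perc

/-- the variance of the number of the crossing clusters -/
noncomputable def varNumber (δ : ℝ) (F G : ℝ → ℝ) (A B : ℝ) : ℝ :=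
  ∫ ω, (number δ F G A B ω - meanNumber δ F G A B) ^ 2 ∂perc

/-! ### The conformal modulus -/

/-- the open rectangle `(0,1) × (0,lam)` -/
def Rectangle (lam : ℝ) : Set ℂ := {z | 0 < z.re ∧ z.re < 1 ∧ 0 < z.im ∧ z.im < lam}

/-- `φ` maps the channel conformally onto the rectangle `(0,1) × (0,lam)`, is continuous on the
closed channel, and takes the four sides to the corresponding four sides: `lam` is the modulus of the
channel (the extremal distance of its two ends) -/
structure ConformalOnto (F G : ℝ → ℝ) (A B lam : ℝ) (φ : ℂ → ℂ) : Prop where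
  holomorphic : DifferentiableOn ℂ φ (Channel F G A B)
  continuous : ContinuousOn φ (closure (Channel F G A B))
  bijective : BijOn φ (Channel F G A B) (Rectangle lam)
  left : ∀ z ∈ closure (Channel F G A B), z.re = F z.im → (φ z).re = 0
  right : ∀ z ∈ closure (Channel F G A B), z.re = G z.im → (φ z).re = 1
  bottom : ∀ z ∈ closure (Channel F G A B), z.im = A → (φ z).im = 0
  top : ∀ z ∈ closure (Channel F G A B), z.im = B → (φ z).im = lam

/-- **The number of crossing clusters of a slowly varying channel, in terms of its conformal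
modulus.**  There is a constant `C` such that for all `0 ≤ α ≤ 1/256`, for all channels between the
graphs of two `C¹` functions with derivatives of absolute value at most `α`, of width at least
`w > 0` and of conformal modulus `lam`, and for every mesh `δ ≤ w/3`, the number of crossing clusters
has the mean `√3/4 lam` up to `C (1 + (√α + δ/w) lam)`, and a variance of at most `C (1 + lam)`. -/
theorem result : ∃ C : ℝ, ∀ (α : ℝ) (F G : ℝ → ℝ) (A B w lam : ℝ) (φ : ℂ → ℂ) (δ : ℝ),
    0 ≤ α → α ≤ 1 / 256 → ContDiff ℝ 1 F → ContDiff ℝ 1 G →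
    (∀ y, |deriv F y| ≤ α) → (∀ y, |deriv G y| ≤ α) →
    A < B → 0 < w → (∀ y ∈ Icc A B, w ≤ G y - F y) →
    ConformalOnto F G A B lam φ → 0 < δ → δ ≤ w / 3 →
      |meanNumber δ F G A B - √3 / 4 * lam| ≤ C * (1 + (√α + δ / w) * lam) ∧
      varNumber δ F G A B ≤ C * (1 + lam) := by
  obtain ⟨C, hC1, hC⟩ := TH601.SV.cont_main
  refine ⟨C, fun α F G A B w lam φ δ h0 h1 hF hG hFα hGα hAB hw0 hw hφ hδ hδw => ?_⟩
  have hφ' : TH601.SV.Mod.ConfRect F G A B lam φ :=
    ⟨hφ.holomorphic, hφ.continuous, hφ.bijective, hφ.left, hφ.right, hφ.bottom, hφ.top⟩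
  have hl : 0 < lam := by
    have hz : (⟨(F ((A + B) / 2) + G ((A + B) / 2)) / 2, (A + B) / 2⟩ : ℂ) ∈ Channel F G A B := by
      have := hw ((A + B) / 2) ⟨by linarith, by linarith⟩
      refine ⟨?_, ?_, ?_, ?_⟩
      · show A < (A + B) / 2
        linarith
      · show (A + B) / 2 < B
        linarith
      · show F ((A + B) / 2) < (F ((A + B) / 2) + G ((A + B) / 2)) / 2
        linarith
      · show (F ((A + B) / 2) + G ((A + B) / 2)) / 2 < G ((A + B) / 2)
        linarith
    have := hφ.bijective.mapsTo hz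
    exact this.2.2.1.trans this.2.2.2
  have hdF : Differentiable ℝ F := hF.differentiable one_ne_zero
  have hdG : Differentiable ℝ G := hG.differentiable one_ne_zero
  exact hC α F G (deriv F) (deriv G) A B lam w φ δ h0 h1 (fun y => (hdF y).hasDerivAt)
    (fun y => (hdG y).hasDerivAt) (hF.continuous_deriv le_rfl) (hG.continuous_deriv le_rfl)
    hFα hGα hAB hl hw0 hw hφ' hδ (by linarith)

end Pool.Agent.Results.MP_35f495_pr.SlowlyVaryingDomains
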